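import Pool.Agent.H413.G.R_seed8.H494R3.NK.Stmts

set_option autoImplicit false

namespace Pool.Agent.H22R3.NK

open Pool.Agent.H494R3.NK

universe u

variable {R : Type u} [NonUnitalRing R]

theorem Ir_zero (r : R) : (0 : R) ∈ Ir r := ⟨0, fun _ => 0, fun _ => 0, by simp⟩

theorem Ir_add {r a b : R} (ha : a ∈ Ir r) (hb : b ∈ Ir r) : a + b ∈ Ir r := by
  obtain ⟨m, x, y, rfl⟩ := ha
  obtain ⟨n, x', y', rfl⟩ := hb
  refine ⟨m + n, Fin.append x x', Fin.append y y', ?_⟩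
  rw [Fin.sum_univ_add]
  simp

theorem Ir_mul_left {r a : R} (c : R) (ha : a ∈ Ir r) : c * a ∈ Ir r := by
  obtain ⟨m, x, y, rfl⟩ := ha
  refine ⟨m, fun i => c * x i, y, ?_⟩
  rw [Finset.mul_sum]
  exact Finset.sum_congr rfl fun i _ => by simp only [mul_assoc]

theorem Ir_mul_right {r a : R} (c : R) (ha : a ∈ Ir r) : a * c ∈ Ir r := by
  obtain ⟨m, x, y, rfl⟩ := ha
  refine ⟨m, x, fun i => y i * c, ?_⟩
  rw [Finset.sum_mul]
  exact Finset.sum_congr rfl fun i _ => by simp only [mul_assoc]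

theorem Ir_sum {r : R} {ι : Type} (s : Finset ι) (f : ι → R) (h : ∀ i ∈ s, f i ∈ Ir r) :
    ∑ i ∈ s, f i ∈ Ir r := by
  classical
  induction s using Finset.induction_on with
  | empty => simpa using Ir_zero r
  | insert a s ha ih =>
    rw [Finset.sum_insert ha]
    exact Ir_add (h a (Finset.mem_insert_self _ _))
      (ih fun i hi => h i (Finset.mem_insert_of_mem hi))

theorem Ir_self {r : R} (hr : r * r = r) : r ∈ Ir r := by
  refine ⟨1, fun _ => r, fun _ => r, ?_⟩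
  simp [hr]

theorem Eqv_entries {r : R} {ι κ : Type} [Fintype ι] [Fintype κ] {e : Matrix ι ι R}
    {f : Matrix κ κ R} (he : e * e = e) (h : Eqv e f) (hf : ∀ i j, f i j ∈ Ir r) :
    ∀ i j, e i j ∈ Ir r := by
  obtain ⟨x, y, h1, h2⟩ := h
  have h3 : e = x * (f * y) := by
    rw [← h2, Matrix.mul_assoc y x y, ← Matrix.mul_assoc x y, h1, he]
  intro i j
  rw [h3, Matrix.mul_apply]
  refine Ir_sum _ _ fun k _ => Ir_mul_left _ ?_
  rw [Matrix.mul_apply]
  exact Ir_sum _ _ fun l _ => Ir_mul_right _ (hf k l)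

theorem blk_entries {r : R} {m n : ℕ} {e : Matrix (Fin m) (Fin m) R} {f : Matrix (Fin n) (Fin n) R}
    (he : ∀ i j, e i j ∈ Ir r) (hf : ∀ i j, f i j ∈ Ir r) : ∀ i j, blk e f i j ∈ Ir r := by
  intro i j
  unfold blk
  rw [Matrix.submatrix_apply]
  rcases finSumFinEquiv.symm i with a | a <;> rcases finSumFinEquiv.symm j with b | b
  · exact he a b
  · exact Ir_zero r
  · exact Ir_zero r
  · exact hf a b

theorem nsmul_entries {r : R} (hr : r * r = r) (m : ℕ) :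
    ∃ g : Idem R, m • cl hr = VV.mk g ∧ ∀ i j, g.mat i j ∈ Ir r := by
  induction m with
  | zero => exact ⟨Idem.zero R, by rw [zero_nsmul]; rfl, fun i => i.elim0⟩
  | succ m ih =>
    obtain ⟨g, hg, hg2⟩ := ih
    refine ⟨g.add ⟨1, s1 r, s1_idem hr⟩, ?_, ?_⟩
    · rw [succ_nsmul, hg]; rfl
    · exact blk_entries hg2 (fun _ _ => Ir_self hr)

theorem taskMem : TaskMem.{u} := by
  intro R _ r p hr hp z m h
  obtain ⟨g, hg, hg2⟩ := nsmul_entries hr m
  rw [hg] at h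
  obtain ⟨w, rfl⟩ : ∃ w : Idem R, VV.mk w = z := Quotient.exists_rep z
  have h1 : Eqv (blk (s1 p) w.mat) g.mat := VV.mk_eq.1 h
  have h2 := Eqv_entries (blk_idem (s1_idem hp) w.idem) h1 hg2
    (finSumFinEquiv (Sum.inl 0)) (finSumFinEquiv (Sum.inl 0))
  unfold blk at h2
  rw [Matrix.submatrix_apply, Equiv.symm_apply_apply] at h2
  exact h2

end Pool.Agent.H22R3.NK
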